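import Pool.Agent.H411R2.CycD

/-!
The cycles `C_3, …, C_n` have a distance labeling with `O(n^{3/2} exp(-√(log n) / 13))` labels.
-/

set_option autoImplicit false

namespace Pool.Agent.Results.MP_30c5a0_lc.CycleLabelExp

open Pool.Agent.H411R2.Cyc

theorem result : ∃ C : ℝ, ∀ n : ℕ, 1 ≤ n →
    (lam n : ℝ) ≤ C * (n : ℝ) ^ (3 / 2 : ℝ) * Real.exp (-(Real.sqrt (Real.log n) / 13)) := by
  refine ⟨3 * (2 ^ 225 * 2 ^ 225), fun n hn => ?_⟩
  have hn1 : (1 : ℝ) ≤ n := by exact_mod_cast hn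
  have hL0 : 0 ≤ Real.log n := Real.log_nonneg hn1
  have hl1 := Real.log_two_gt_d9
  have hl2 := Real.log_two_lt_d9
  obtain ⟨l, hl⟩ : ∃ l, l = Real.log 2 := ⟨_, rfl⟩
  rw [← hl] at hl1 hl2
  have hl0 : 0 < l := by linarith
  rw [rpow_three_half]
  have hnn : (1 : ℝ) ≤ n * Real.sqrt n := by
    have : (1 : ℝ) ≤ Real.sqrt n := Real.one_le_sqrt.2 hn1
    nlinarith
  rcases lt_or_ge n (2 ^ 225) with hsmall | hbig
  · -- few cycles
    have h1 : lam n ≤ 2 ^ 225 * 2 ^ 225 :=
      lam_le ((col_small (2 ^ 225)).mono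
        (fun i hi => lt_of_le_of_lt (show i ≤ n from hi) hsmall) le_rfl)
    have h1' : (lam n : ℝ) ≤ 2 ^ 225 * 2 ^ 225 := by exact_mod_cast h1
    have h2 : Real.log n ≤ 225 * l := by
      have h3 : Real.log n ≤ Real.log (2 ^ 225) :=
        Real.log_le_log (by linarith) (by exact_mod_cast hsmall.le)
      rw [Real.log_pow] at h3
      rw [hl]
      exact_mod_cast h3
    have h3 : Real.sqrt (Real.log n) ≤ 13 := by
      apply Real.sqrt_le_iff.2
      constructor
      · norm_num
      · linarith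
    have h4 : (1 : ℝ) / 3 ≤ Real.exp (-(Real.sqrt (Real.log n) / 13)) := by
      have h5 : Real.exp (-1) ≤ Real.exp (-(Real.sqrt (Real.log n) / 13)) := by
        apply Real.exp_le_exp.2
        linarith
      refine le_trans ?_ h5
      rw [Real.exp_neg, one_div]
      apply inv_anti₀ (Real.exp_pos _)
      have := Real.exp_one_lt_d9
      linarith
    calc (lam n : ℝ) ≤ 2 ^ 225 * 2 ^ 225 := h1'
      _ = 3 * (2 ^ 225 * 2 ^ 225) * 1 * (1 / 3) := by ring
      _ ≤ _ := by
          apply mul_le_mul _ h4 (by positivity) (by positivity)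
          exact mul_le_mul_of_nonneg_left hnn (by positivity)
  · -- many cycles
    have hbig' : (2 : ℝ) ^ 225 ≤ n := by exact_mod_cast hbig
    have h1 : 225 * l ≤ Real.log n := by
      have h3 : Real.log (2 ^ 225) ≤ Real.log n := Real.log_le_log (by positivity) hbig'
      rw [Real.log_pow] at h3
      rw [hl]
      exact_mod_cast h3
    obtain ⟨s, hs⟩ : ∃ s, s = Real.sqrt (Real.log n) := ⟨_, rfl⟩
    have hs0 : 0 ≤ s := by rw [hs]; exact Real.sqrt_nonneg _
    have hs2 : s ^ 2 = Real.log n := by rw [hs]; exact Real.sq_sqrt hL0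
    obtain ⟨r, hr⟩ : ∃ r, r = Real.sqrt l := ⟨_, rfl⟩
    have hr0 : 0 < r := by rw [hr]; exact Real.sqrt_pos.2 hl0
    have hr2 : r ^ 2 = l := by rw [hr]; exact Real.sq_sqrt hl0.le
    obtain ⟨x, hx⟩ : ∃ x, x = s / (5 * r) := ⟨_, rfl⟩
    have hxr : x * (5 * r) = s := by rw [hx]; field_simp
    have hx3 : 3 ≤ x := by
      rw [hx, le_div_iff₀ (by positivity)]
      apply le_of_sq_le_sq _ hs0
      rw [hs2]
      calc (3 * (5 * r)) ^ 2 = 225 * r ^ 2 := by ring
        _ = 225 * l := by rw [hr2]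
        _ ≤ _ := h1
    have hx0 : 0 ≤ x := by linarith
    obtain ⟨q, hq⟩ : ∃ q, q = ⌊x⌋₊ := ⟨_, rfl⟩
    have hqx : (q : ℝ) ≤ x := by rw [hq]; exact Nat.floor_le hx0
    have hxq : x < q + 1 := by rw [hq]; exact Nat.lt_floor_add_one x
    have hq3 : 3 ≤ q := by
      rw [hq]
      apply Nat.le_floor
      exact_mod_cast hx3
    obtain ⟨j, rfl⟩ : ∃ j, q = j + 3 := ⟨q - 3, by omega⟩
    have hpow : 2 ^ (25 * (j + 3) ^ 2) ≤ n := by
      have h2 : ((25 * (j + 3) ^ 2 : ℕ) : ℝ) * l ≤ Real.log n := by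
        have h3 : ((j + 3 : ℕ) : ℝ) ^ 2 ≤ x ^ 2 := pow_le_pow_left₀ (by positivity) hqx 2
        push_cast at h3 ⊢
        calc (25 * ((j : ℝ) + 3) ^ 2) * l ≤ (25 * x ^ 2) * l := by
              apply mul_le_mul_of_nonneg_right _ hl0.le
              linarith
          _ = (x * (5 * r)) ^ 2 := by rw [← hr2]; ring
          _ = _ := by rw [hxr, hs2]
      have h3 : Real.log ((2 : ℝ) ^ (25 * (j + 3) ^ 2)) ≤ Real.log n := by
        rw [Real.log_pow, ← hl]
        exact h2
      have h4 : ((2 : ℝ) ^ (25 * (j + 3) ^ 2)) ≤ n :=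
        (Real.log_le_log_iff (by positivity) (by linarith)).1 h3
      exact_mod_cast h4
    have hmain := lam_le_pow j n hpow
    have hsj : Real.sqrt (2 ^ j) = Real.exp (j * l / 2) := by
      rw [Real.sqrt_eq_iff_mul_self_eq (by positivity) (Real.exp_pos _).le, ← Real.exp_add,
        show (j : ℝ) * l / 2 + j * l / 2 = l * j by ring, Real.exp_mul, hl,
        Real.exp_log (by norm_num), Real.rpow_natCast]
    have hexp : (Real.sqrt (2 ^ j))⁻¹ ≤ 4 * Real.exp (-(s / 13)) := by
      rw [hsj, ← Real.exp_neg]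
      have h4 : (4 : ℝ) = Real.exp (2 * l) := by
        rw [two_mul, Real.exp_add, hl, Real.exp_log (by norm_num)]
        norm_num
      rw [h4, ← Real.exp_add]
      apply Real.exp_le_exp.2
      have h5 : x * l / 2 = s * r / 10 := by
        rw [← hxr, ← hr2]
        ring
      have h6 : 10 / 13 ≤ r := by
        apply le_of_sq_le_sq _ hr0.le
        rw [hr2]
        norm_num
        linarith
      have h7 : s / 13 ≤ s * r / 10 := by
        have := mul_le_mul_of_nonneg_left h6 hs0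
        linarith
      push_cast at hxq
      have h8 : (x - 4) * l ≤ j * l := by
        apply mul_le_mul_of_nonneg_right _ hl0.le
        linarith
      linarith
    have hE0 : 0 ≤ Real.exp (-(s / 13)) := (Real.exp_pos _).le
    rw [← hs]
    calc (lam n : ℝ) ≤ 224 * (n * Real.sqrt n) / Real.sqrt (2 ^ j) := hmain
      _ = 224 * (n * Real.sqrt n) * (Real.sqrt (2 ^ j))⁻¹ := by rw [div_eq_mul_inv]
      _ ≤ 224 * (n * Real.sqrt n) * (4 * Real.exp (-(s / 13))) :=
          mul_le_mul_of_nonneg_left hexp (by positivity)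
      _ = 896 * (n * Real.sqrt n) * Real.exp (-(s / 13)) := by ring
      _ ≤ _ := by
          apply mul_le_mul_of_nonneg_right _ hE0
          apply mul_le_mul_of_nonneg_right _ (by positivity)
          norm_num

end Pool.Agent.Results.MP_30c5a0_lc.CycleLabelExp
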